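import Pool.Agent.Q195.BU2

set_option autoImplicit false

/-!
# MP_55c50e_an, Q1: `ℓ_p` is not sequentially Buo-complete for `1 < p < ∞`
-/

namespace Pool.Agent.Results.MP_55c50e_an.NotBuoComplete

/-- `a ∈ ℓ_p`. -/
def InLp (p : ℝ) (a : ℕ → ℝ) : Prop := Summable fun j => |a j| ^ p

/-- The sequence `(d_k)` converges in order to `l` in the vector lattice `ℓ_p`: there are a
decreasing sequence `(z_m)` of positive elements of `ℓ_p` with infimum `0` in `ℓ_p` and indices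
`N_m` such that `|d_k - l| ≤ z_m` for all `k ≥ N_m`. -/
def OrderConv (p : ℝ) (d : ℕ → ℕ → ℝ) (l : ℕ → ℝ) : Prop :=
  ∃ z : ℕ → ℕ → ℝ, (∀ m, InLp p (z m)) ∧ (∀ m, z (m + 1) ≤ z m) ∧ (∀ m, 0 ≤ z m) ∧
    (∀ w, InLp p w → (∀ m, w ≤ z m) → w ≤ 0) ∧
    ∀ m, ∃ N, ∀ k, N ≤ k → ∀ j, |d k j - l j| ≤ z m j

/-- The sequence `(x_n)` is Buo-Cauchy in `ℓ_p`. -/
def BuoCauchy (p : ℝ) (x : ℕ → ℕ → ℝ) : Prop :=
  ∀ ν : ℕ → ℕ, StrictMono ν → OrderConv p (fun k j => x (ν (k + 1)) j - x (ν k) j) 0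

/-- The sequence `(x_n)` converges to `a` in the Buo sense in `ℓ_p`. -/
def BuoConv (p : ℝ) (x : ℕ → ℕ → ℝ) (a : ℕ → ℝ) : Prop :=
  (∀ u, InLp p u → 0 ≤ u → OrderConv p (fun n j => min |x n j - a j| (u j)) 0) ∧
    ∃ y, InLp p y ∧ 0 ≤ y ∧ ∀ n j, |x n j| ≤ y j

/-- `ℓ_p` is sequentially Buo-complete. -/
def SeqBuoComplete (p : ℝ) : Prop :=
  ∀ x : ℕ → ℕ → ℝ, (∀ n, InLp p (x n)) → BuoCauchy p x → ∃ a, InLp p a ∧ BuoConv p x a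

/-- For every `1 < p < ∞` the Banach lattice `ℓ_p` is not sequentially Buo-complete; moreover there
is a Buo-Cauchy sequence in `ℓ_p` with no order limit in `ℓ_p`. -/
theorem result (p : ℝ) (hp : 1 < p) : ¬ SeqBuoComplete p ∧
    ∃ x : ℕ → ℕ → ℝ, (∀ n, InLp p (x n)) ∧ BuoCauchy p x ∧
      ∀ a, InLp p a → ¬ OrderConv p x a := by
  obtain ⟨x, h1, h2, h3, h4⟩ := Pool.Agent.Q195.BU.main p hp
  refine ⟨fun hc => ?_, x, h1, h2, fun a _ => h4 a⟩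
  obtain ⟨a, -, -, y, hy, -, hxy⟩ := hc x h1 h2
  exact h3 y hy 0 fun n _ j => hxy n j

end Pool.Agent.Results.MP_55c50e_an.NotBuoComplete
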